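import Mathlib
import Pool.Agent.Q74.Circ.Main

/-!
# Weighted products of distances on the unit circle

Let `F z = ∏ |z - z j| ^ p j` with `|z j| = 1`, `p j ≥ 0` and `∑ p j = r`. Then `F z ≥ 2` for some
`z` on the unit circle.

Idea of the proof. Let `n` be the number of the distinct points of positive weight, and
`log F = r V`, `V' = C / 2`, where `C` is the weighted mean of the cotangents of the half
differences. On each arc between two neighbouring points `C` decreases from `+∞` to `-∞`, and `V`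
has one maximum `w`; integrate `(t - a) C t / 2` over `(a, w)` by parts, and bound it from below
by Young's inequality for a pair of functions `K`, `L`. The sum over all the arcs involves only the
integral of `K ∘ C` over the circle, which does not depend on the weights and the points, because
the distribution of `C` is the Cauchy distribution.
-/

set_option autoImplicit false

namespace Pool.Agent.Results.MP_280d4a_an.WeightedDistances

open Pool.Agent.Q74.Circ Real Set

/-- For all `r ≥ 1`, all points `z j` of the unit circle and all weights `p j ≥ 0` with sum `r`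
there is a point `w` of the unit circle with `∏ |w - z j| ^ p j ≥ 2`. -/
theorem result (r : ℕ) (hr : 1 ≤ r) (z : Fin r → ℂ) (p : Fin r → ℝ)
    (hz : ∀ j, ‖z j‖ = 1) (hp : ∀ j, 0 ≤ p j) (hsum : ∑ j, p j = r) :
    ∃ w : ℂ, ‖w‖ = 1 ∧ 2 ≤ ∏ j, ‖w - z j‖ ^ p j := by
  have hr0 : (0 : ℝ) < r := by exact_mod_cast hr
  -- a point of maximum
  have hcont : Continuous fun w : ℂ => ∏ j, ‖w - z j‖ ^ p j := by
    refine continuous_finsetProd _ fun j _ => ?_
    exact ((continuous_id.sub continuous_const).norm).rpow_const fun _ => Or.inr (hp j)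
  obtain ⟨w, hw, hmax⟩ := (isCompact_sphere (0 : ℂ) 1).exists_isMaxOn
    ⟨1, by simp⟩ hcont.continuousOn
  have hmax' : ∀ v : ℂ, ‖v‖ = 1 → ∏ j, ‖v - z j‖ ^ p j ≤ ∏ j, ‖w - z j‖ ^ p j := by
    intro v hv
    exact hmax (by simpa using hv)
  refine ⟨w, by simpa using hw, ?_⟩
  -- a point of positive weight
  obtain ⟨j0, hj0⟩ : ∃ j, 0 < p j := by
    by_contra hcon
    push Not at hcon
    have : ∑ j, p j ≤ 0 := Finset.sum_nonpos fun j _ => hcon j
    rw [hsum] at this
    linarith
  have hzne : z j0 ≠ 0 := by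
    intro h
    have := hz j0
    rw [h, norm_zero] at this
    exact zero_ne_one this
  -- the angles
  have hang : ∀ j, ∃ θ : ℝ, θ ∈ Ico 0 (2 * π) ∧ ei θ = z j / z j0 := fun j =>
    exists_angle _ (by rw [norm_div, hz j, hz j0, div_one])
  choose θ' hθ' hθ'' using hang
  let θ : Fin r → ℝ := fun j => if j = j0 then 0 else θ' j
  have hθ : ∀ j, θ j ∈ Ico 0 (2 * π) := by
    intro j
    by_cases h : j = j0
    · simp only [θ, h, if_true]
      exact ⟨le_rfl, by positivity⟩
    · simp only [θ, h, if_false]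
      exact hθ' j
  have hθz : ∀ j, ei (θ j) = z j / z j0 := by
    intro j
    by_cases h : j = j0
    · simp only [θ, h, if_true]
      rw [div_self hzne]
      simp [ei]
    · simp only [θ, h, if_false]
      exact hθ'' j
  -- the normalised data
  let J : Finset (Fin r) := Finset.univ.filter fun j => 0 < p j
  let S : Finset ℝ := J.image θ
  let m : ℝ → ℝ := fun s => (∑ j ∈ J with θ j = s, p j) / r
  have hmaps : ∀ j ∈ J, θ j ∈ S := fun j hj => Finset.mem_image_of_mem _ hj
  have hsumJ : ∀ f : Fin r → ℝ, ∑ j ∈ J, p j * f j = ∑ j, p j * f j := by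
    intro f
    refine Finset.sum_subset (Finset.subset_univ _) fun j _ hj => ?_
    have : p j = 0 := by
      by_contra h
      exact hj (Finset.mem_filter.2 ⟨Finset.mem_univ _, lt_of_le_of_ne (hp j) (Ne.symm h)⟩)
    rw [this, zero_mul]
  have hfib : ∀ g : ℝ → ℝ, ∑ s ∈ S, m s * g s = (∑ j, p j * g (θ j)) / r := by
    intro g
    rw [← hsumJ, ← Finset.sum_fiberwise_of_maps_to hmaps, Finset.sum_div]
    refine Finset.sum_congr rfl fun s _ => ?_
    simp only [m]
    rw [div_mul_eq_mul_div, Finset.sum_mul]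
    congr 1
    refine Finset.sum_congr rfl fun j hj => ?_
    rw [(Finset.mem_filter.1 hj).2]
  have hS : ∀ s ∈ S, s ∈ Ico 0 (2 * π) := by
    intro s hs
    obtain ⟨j, _, rfl⟩ := Finset.mem_image.1 hs
    exact hθ j
  have hS0 : (0 : ℝ) ∈ S := by
    refine Finset.mem_image.2 ⟨j0, Finset.mem_filter.2 ⟨Finset.mem_univ _, hj0⟩, ?_⟩
    simp [θ]
  have hm : ∀ s ∈ S, 0 < m s := by
    intro s hs
    obtain ⟨j, hj, rfl⟩ := Finset.mem_image.1 hs
    refine div_pos (Finset.sum_pos (fun i hi => ?_) ⟨j, Finset.mem_filter.2 ⟨hj, rfl⟩⟩) hr0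
    exact (Finset.mem_filter.1 (Finset.mem_filter.1 hi).1).2
  have hm1 : ∑ s ∈ S, m s = 1 := by
    have := hfib fun _ => 1
    simp only [mul_one] at this
    rw [this, hsum, div_self hr0.ne']
  have hcard : (S.card : ℝ) ≤ r := by
    have h1 : S.card ≤ J.card := Finset.card_image_le
    have h2 : J.card ≤ r := by simpa using J.card_le_univ
    exact_mod_cast h1.trans h2
  -- the value of the product
  have hval : ∀ t, (∀ s ∈ S, sin ((t - s) / 2) ≠ 0) →
      0 < ∏ j, ‖ei t * z j0 - z j‖ ^ p j ∧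
        V S m t = log (∏ j, ‖ei t * z j0 - z j‖ ^ p j) / r := by
    intro t ht
    have hd : ∀ j, ‖ei t * z j0 - z j‖ = ‖ei t - ei (θ j)‖ := by
      intro j
      rw [hθz j]
      have : ei t * z j0 - z j = (ei t - z j / z j0) * z j0 := by field_simp
      rw [this, norm_mul, hz j0, mul_one]
    have hpos : ∀ j, 0 < p j → 0 < ‖ei t - ei (θ j)‖ := by
      intro j hj
      rw [norm_sub_rev]
      exact norm_pos_iff.2 (ei_sub_ne (ht _ (hmaps j
        (Finset.mem_filter.2 ⟨Finset.mem_univ _, hj⟩))))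
    have hfac : ∀ j, 0 < ‖ei t * z j0 - z j‖ ^ p j := by
      intro j
      rw [hd j]
      rcases (hp j).eq_or_lt with h | h
      · rw [← h, rpow_zero]; exact one_pos
      · exact rpow_pos_of_pos (hpos j h) _
    refine ⟨Finset.prod_pos fun j _ => hfac j, ?_⟩
    rw [log_prod fun j _ => (hfac j).ne']
    have h1 := hfib fun s => log 2 + log (sin ((t - s) / 2))
    rw [V, h1]
    congr 1
    refine Finset.sum_congr rfl fun j _ => ?_
    rcases (hp j).eq_or_lt with h | h
    · rw [← h, zero_mul, rpow_zero, log_one]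
    · rw [hd j, log_rpow (hpos j h), log_norm_ei_sub (ht _ (hmaps j
        (Finset.mem_filter.2 ⟨Finset.mem_univ _, h⟩)))]
  obtain ⟨t1, ht1⟩ : ∃ t : ℝ, ∀ s ∈ S, sin ((t - s) / 2) ≠ 0 := (ae_sin_ne S).exists
  have hnorm : ∀ t, ‖ei t * z j0‖ = 1 := by
    intro t
    rw [norm_mul, norm_ei, hz j0, mul_one]
  have hpos : 0 < ∏ j, ‖w - z j‖ ^ p j :=
    lt_of_lt_of_le (hval t1 ht1).1 (hmax' _ (hnorm t1))
  have hmain := main_ineq (M := log (∏ j, ‖w - z j‖ ^ p j) / r) hS hS0 hm hm1 (by
    intro t ht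
    obtain ⟨h1, h2⟩ := hval t ht
    rw [h2]
    exact div_le_div_of_nonneg_right (log_le_log h1 (hmax' _ (hnorm t))) hr0.le)
  have hSpos : (0 : ℝ) < S.card := by exact_mod_cast Finset.card_pos.2 ⟨0, hS0⟩
  have h3 : log 2 / r ≤ log (∏ j, ‖w - z j‖ ^ p j) / r :=
    (div_le_div_of_nonneg_left (log_nonneg one_le_two) hSpos hcard).trans hmain
  have h4 : log 2 ≤ log (∏ j, ‖w - z j‖ ^ p j) := by
    rwa [div_le_div_iff_of_pos_right hr0] at h3
  exact (log_le_log_iff two_pos hpos).1 h4

end Pool.Agent.Results.MP_280d4a_an.WeightedDistances
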